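import Pool.Agent.StoppingTime.Defs

set_option autoImplicit false

/-!
Combinatorics of weights on the binary tree used in the proof.
-/

namespace Pool.Agent.StoppingTime

open Finset

/-- Nodes of length `< n`. -/
def levels : ℕ → Finset Node
  | 0 => ∅
  | n + 1 => insert [] ((levels n).image (List.cons false) ∪ (levels n).image (List.cons true))

theorem mem_levels : ∀ (n : ℕ) (v : Node), v ∈ levels n ↔ v.length < n
  | 0, v => by simp [levels]
  | n + 1, v => by
    cases v with
    | nil => simp [levels]
    | cons b v =>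
      cases b <;> simp [levels, mem_levels n]

theorem sum_levels_succ (n : ℕ) (g : Node → ℝ) :
    ∑ v ∈ levels (n + 1), g v =
      g [] + (∑ v ∈ levels n, g (false :: v) + ∑ v ∈ levels n, g (true :: v)) := by
  rw [levels, sum_insert, sum_union, sum_image, sum_image]
  · intro x _ y _ h; simpa using h
  · intro x _ y _ h; simpa using h
  · rw [disjoint_left]
    intro a ha hb
    simp only [mem_image] at ha hb
    obtain ⟨x, _, rfl⟩ := ha
    obtain ⟨y, _, hy⟩ := hb
    simp at hy
  · simp

/-- Chain sums of the weight `φ` are at most `c`. -/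
def ChainLe (φ : Node → ℝ) (c : ℝ) : Prop :=
  ∀ u : Node, ∑ k ∈ range (u.length + 1), φ (u.take k) ≤ c

/-- Antichain sums of `w` are at most `c`. -/
def AntiLe (w : Node → ℝ) (c : ℝ) : Prop :=
  ∀ A : Finset Node, IsAnti (A : Set Node) → ∑ t ∈ A, w t ≤ c

/-- Recursive form of the best antichain sum. -/
noncomputable def best : ℕ → (Node → ℝ) → ℝ
  | 0, _ => 0
  | n + 1, w => max (w []) (best n (fun v => w (false :: v)) + best n (fun v => w (true :: v)))

theorem exists_best : ∀ (n : ℕ) (w : Node → ℝ),
    ∃ A : Finset Node, IsAnti (A : Set Node) ∧ ∑ t ∈ A, w t = best n w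
  | 0, w => ⟨∅, by intro s hs; simp at hs, by simp [best]⟩
  | n + 1, w => by
    obtain ⟨A0, h0, e0⟩ := exists_best n (fun v => w (false :: v))
    obtain ⟨A1, h1, e1⟩ := exists_best n (fun v => w (true :: v))
    rw [best]
    rcases le_total (w []) (best n (fun v => w (false :: v)) + best n (fun v => w (true :: v)))
      with h | h
    · refine ⟨A0.image (List.cons false) ∪ A1.image (List.cons true), ?_, ?_⟩
      · intro s hs t ht hst
        simp only [coe_union, coe_image, Set.mem_union, Set.mem_image, mem_coe] at hs ht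
        rcases hs with ⟨s, hs, rfl⟩ | ⟨s, hs, rfl⟩ <;> rcases ht with ⟨t, ht, rfl⟩ | ⟨t, ht, rfl⟩
        · rw [List.cons_prefix_cons] at hst
          rw [h0 s hs t ht hst.2]
        · rw [List.cons_prefix_cons] at hst
          simp at hst
        · rw [List.cons_prefix_cons] at hst
          simp at hst
        · rw [List.cons_prefix_cons] at hst
          rw [h1 s hs t ht hst.2]
      · rw [max_eq_right h, sum_union, sum_image, sum_image, ← e0, ← e1]
        · intro x _ y _ h; simpa using h
        · intro x _ y _ h; simpa using h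
        · rw [disjoint_left]
          intro a ha hb
          simp only [mem_image] at ha hb
          obtain ⟨x, _, rfl⟩ := ha
          obtain ⟨y, _, hy⟩ := hb
          simp at hy
    · refine ⟨{[]}, ?_, ?_⟩
      · intro s hs t ht _
        simp only [coe_singleton, Set.mem_singleton_iff] at hs ht
        rw [hs, ht]
      · rw [max_eq_left h]; simp

theorem ChainLe.nil {φ : Node → ℝ} {c : ℝ} (h : ChainLe φ c) : φ [] ≤ c := by
  have := h []
  simpa using this

theorem ChainLe.cons {φ : Node → ℝ} {c : ℝ} (h : ChainLe φ c) (b : Bool) :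
    ChainLe (fun v => φ (b :: v)) (c - φ []) := by
  intro u
  have := h (b :: u)
  rw [List.length_cons, sum_range_succ'] at this
  simp only [List.take_succ_cons, List.take_zero] at this
  linarith

theorem sum_le_best : ∀ (n : ℕ) (φ w : Node → ℝ) (c : ℝ), (∀ v, 0 ≤ φ v) → ChainLe φ c →
    ∑ v ∈ levels n, φ v * w v ≤ c * best n w
  | 0, φ, w, c, _, _ => by simp [levels, best]
  | n + 1, φ, w, c, hφ, hc => by
    rw [sum_levels_succ, best]
    have h0 := sum_le_best n (fun v => φ (false :: v)) (fun v => w (false :: v)) (c - φ [])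
      (fun v => hφ _) (hc.cons false)
    have h1 := sum_le_best n (fun v => φ (true :: v)) (fun v => w (true :: v)) (c - φ [])
      (fun v => hφ _) (hc.cons true)
    have hc0 : 0 ≤ c - φ [] := by have := hc.nil; linarith
    set S := max (w []) (best n (fun v => w (false :: v)) + best n (fun v => w (true :: v)))
      with hS
    have e1 : w [] ≤ S := le_max_left _ _
    have e2 : best n (fun v => w (false :: v)) + best n (fun v => w (true :: v)) ≤ S :=
      le_max_right _ _
    have e3 := mul_le_mul_of_nonneg_left e1 (hφ [])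
    have e4 := mul_le_mul_of_nonneg_left e2 hc0
    nlinarith

/-- The duality inequality between chain sums and antichain sums. -/
theorem dual_le {φ w : Node → ℝ} {c m : ℝ} (hφ : ∀ v, 0 ≤ φ v) (hc : ChainLe φ c)
    (hw : AntiLe w m) (n : ℕ) : ∑ v ∈ levels n, φ v * w v ≤ c * m := by
  obtain ⟨A, hA, e⟩ := exists_best n w
  have h1 := sum_le_best n φ w c hφ hc
  have h2 : best n w ≤ m := e ▸ hw A hA
  have hc0 : 0 ≤ c := (hφ []).trans hc.nil
  exact h1.trans (mul_le_mul_of_nonneg_left h2 hc0)

theorem ChainLe.single {φ : Node → ℝ} {c : ℝ} (hφ : ∀ v, 0 ≤ φ v) (h : ChainLe φ c)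
    (v : Node) : φ v ≤ c := by
  refine le_trans ?_ (h v)
  have : φ v = φ (v.take v.length) := by simp
  rw [this]
  exact single_le_sum (f := fun k => φ (v.take k)) (fun k _ => hφ _) (by simp)

theorem take_eq_of_isPre {s u : Node} (h : s <+: u) (k : ℕ) (hk : k ≤ s.length) :
    u.take k = s.take k := by
  obtain ⟨r, rfl⟩ := h
  rw [List.take_append_of_le_length hk]

/-- Inside every cone there is a cone in which the chain sums are small. -/
theorem exists_small_cone {φ : Node → ℝ} {c : ℝ} (h : ChainLe φ c)
    (s : Node) {ε : ℝ} (hε : 0 < ε) :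
    ∃ t : Node, s <+: t ∧
      ∀ u : Node, t <+: u → ∑ k ∈ Ico t.length (u.length + 1), φ (u.take k) ≤ ε := by
  set G : Node → ℝ := fun u => ∑ k ∈ range (u.length + 1), φ (u.take k) with hG
  set M := sSup {r | ∃ u, s <+: u ∧ r = G u} with hM
  have hb : BddAbove {r | ∃ u, s <+: u ∧ r = G u} := by
    refine ⟨c, ?_⟩
    rintro r ⟨u, _, rfl⟩
    exact h u
  have hne : {r | ∃ u, s <+: u ∧ r = G u}.Nonempty := ⟨G s, s, List.prefix_refl s, rfl⟩
  obtain ⟨r, ⟨u0, hu0, rfl⟩, hr⟩ := exists_lt_of_lt_csSup hne (show M - ε < M by linarith)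
  refine ⟨u0 ++ [false], hu0.trans (List.prefix_append _ _), ?_⟩
  intro u hu
  have hu1 : u0 <+: u := (List.prefix_append _ _).trans hu
  have hle : G u ≤ M := le_csSup hb ⟨u, hu0.trans hu1, rfl⟩
  have hlen : u0.length + 1 ≤ u.length := by
    have := hu.length_le
    simpa using this
  have e1 : G u = ∑ k ∈ range (u0.length + 1), φ (u.take k) +
      ∑ k ∈ Ico (u0.length + 1) (u.length + 1), φ (u.take k) := by
    rw [hG]
    simp only
    rw [range_eq_Ico, range_eq_Ico, sum_Ico_consecutive _ (Nat.zero_le _) (by omega)]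
  have e2 : ∑ k ∈ range (u0.length + 1), φ (u.take k) = G u0 := by
    refine sum_congr rfl fun k hk => ?_
    rw [take_eq_of_isPre hu1 k (by simp at hk; omega)]
  have e3 : (u0 ++ [false]).length = u0.length + 1 := by simp
  rw [e3]
  linarith

/-- The weight restricted to the selected cones. -/
noncomputable def restr (φ : Node → ℝ) (N : ℕ) (t : Node → Node) (v : Node) : ℝ :=
  open Classical in if N ≤ v.length ∧ t (v.take N) <+: v then φ v else 0

theorem restr_chainLe {φ : Node → ℝ} {N : ℕ} {t : Node → Node} {ε : ℝ} (hφ : ∀ v, 0 ≤ φ v)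
    (hε : 0 ≤ ε)
    (ht : ∀ s u : Node, t s <+: u → ∑ k ∈ Ico (t s).length (u.length + 1), φ (u.take k) ≤ ε) :
    ChainLe (restr φ N t) ε := by
  classical
  intro u
  by_cases hu : t (u.take N) <+: u
  swap
  · refine le_trans (le_of_eq ?_) hε
    refine sum_eq_zero fun k _ => ?_
    rw [restr, if_neg]
    rintro ⟨h1, h2⟩
    have hNk : N ≤ k := by simp at h1; omega
    rw [List.take_take, min_eq_left hNk] at h2
    exact hu (h2.trans (List.take_prefix k u))
  refine le_trans ?_ (ht (u.take N) u hu)
  have e1 : ∑ k ∈ Ico (t (u.take N)).length (u.length + 1), φ (u.take k) =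
      ∑ k ∈ range (u.length + 1), if (t (u.take N)).length ≤ k then φ (u.take k) else 0 := by
    rw [← sum_filter]
    refine sum_congr ?_ fun _ _ => rfl
    ext k
    simp only [mem_Ico, mem_filter, mem_range]
    tauto
  rw [e1]
  refine sum_le_sum fun k _ => ?_
  rw [restr]
  split_ifs with h1 h2 h2
  · exact le_rfl
  · exfalso
    have hNk : N ≤ k := by have := h1.1; simp at this; omega
    have h3 := h1.2
    rw [List.take_take, min_eq_left hNk] at h3
    have := h3.length_le
    simp at this
    omega
  · exact hφ _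
  · exact le_rfl

/-- Greedy filling: increase a weight at finitely many nodes so that through each of them there is
an almost norming antichain. -/
theorem greedy (S : Finset Node) (w : Node → ℝ) (hw1 : AntiLe w 1) {η : ℝ}
    (hη : 0 < η) :
    ∃ w' : Node → ℝ, (∀ v, w v ≤ w' v) ∧ (∀ v, v ∉ S → w' v = w v) ∧ AntiLe w' 1 ∧
      ∀ v ∈ S, ∃ A : Finset Node, IsAnti (A : Set Node) ∧ v ∈ A ∧ 1 - η < ∑ t ∈ A, w' t := by
  classical
  induction S using Finset.induction_on with
  | empty => exact ⟨w, fun _ => le_rfl, fun _ _ => rfl, hw1, by simp⟩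
  | insert t0 S ht0 ih =>
    obtain ⟨w', h1, h2, h3, h4⟩ := ih
    set R : Set ℝ := {r | ∃ A : Finset Node, IsAnti (A : Set Node) ∧ t0 ∈ A ∧ r = ∑ t ∈ A, w' t}
      with hR
    have hRb : BddAbove R := ⟨1, by rintro r ⟨A, hA, _, rfl⟩; exact h3 A hA⟩
    have hRne : R.Nonempty := by
      refine ⟨_, {t0}, ?_, by simp, rfl⟩
      intro s hs t ht _
      simp only [coe_singleton, Set.mem_singleton_iff] at hs ht
      rw [hs, ht]
    set μ := sSup R with hμ
    have hμ1 : μ ≤ 1 := csSup_le hRne (by rintro r ⟨A, hA, _, rfl⟩; exact h3 A hA)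
    have key : ∀ A : Finset Node, ∑ t ∈ A, Function.update w' t0 (w' t0 + (1 - μ)) t =
        ∑ t ∈ A, w' t + if t0 ∈ A then 1 - μ else 0 := by
      intro A
      have : ∀ t, Function.update w' t0 (w' t0 + (1 - μ)) t = w' t + if t = t0 then 1 - μ else 0 := by
        intro t
        by_cases h : t = t0
        · subst h; simp
        · simp [h]
      simp only [this, sum_add_distrib]
      congr 1
      simp
    refine ⟨Function.update w' t0 (w' t0 + (1 - μ)), ?_, ?_, ?_, ?_⟩
    · intro v
      by_cases h : v = t0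
      · subst h; simp; have := h1 v; linarith
      · simp [h]; exact h1 v
    · intro v hv
      simp only [mem_insert, not_or] at hv
      simp [hv.1, h2 v hv.2]
    · intro A hA
      rw [key]
      split_ifs with h
      · have : ∑ t ∈ A, w' t ≤ μ := le_csSup hRb ⟨A, hA, h, rfl⟩
        linarith
      · simpa using h3 A hA
    · intro v hv
      rcases Finset.mem_insert.1 hv with rfl | hv
      · obtain ⟨r, ⟨A, hA, hvA, rfl⟩, hr⟩ := exists_lt_of_lt_csSup hRne
          (show μ - η < sSup R by rw [← hμ]; linarith)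
        refine ⟨A, hA, hvA, ?_⟩
        rw [key, if_pos hvA]
        linarith
      · obtain ⟨A, hA, hvA, hlt⟩ := h4 v hv
        refine ⟨A, hA, hvA, ?_⟩
        rw [key]
        split_ifs
        · linarith
        · linarith

theorem isAnti_mono {A B : Set Node} (h : A ⊆ B) (hB : IsAnti B) : IsAnti A :=
  fun s hs t ht hst => hB s (h hs) t (h ht) hst

/-- The combinatorial core, for weights. -/
theorem core_weights {𝕜 : Type} [RCLike 𝕜] {φ : Node → ℝ} {C : ℝ} (hφ : ∀ v, 0 ≤ φ v)
    (hC : ChainLe φ C) (a : C00 𝕜) (ha : ‖a‖ ≤ 1) {ε : ℝ} (hε : 0 < ε) :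
    ∃ (y : C00 𝕜) (L : ℕ) (δ : ℝ), ‖y‖ ≤ 1 ∧ 0 < δ ∧ ∀ b : C00 𝕜, ‖b‖ ≤ 1 →
      (∀ v ∈ levels L, ‖b.coeff v - y.coeff v‖ < δ) →
      ∀ n, ∑ v ∈ levels n, φ v * ‖b.coeff v - a.coeff v‖ ≤ ε := by
  classical
  have hC0 : 0 ≤ C := (hφ []).trans hC.nil
  -- the level `N` above the support of `a`
  obtain ⟨N, hN⟩ : ∃ N, ∀ v, a.coeff v ≠ 0 → v.length < N := by
    refine ⟨a.supp.sup List.length + 1, fun v hv => ?_⟩
    exact Nat.lt_succ_of_le (Finset.le_sup (f := List.length) ((C00.mem_supp a v).2 hv))
  set ε1 := ε / 4 with hε1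
  have hε1p : 0 < ε1 := by positivity
  choose t ht1 ht2 using fun s => exists_small_cone hC s hε1p
  set SN : Finset Node := (levels (N + 1)).filter (fun s => s.length = N) with hSN
  have memSN : ∀ s, s ∈ SN ↔ s.length = N := by
    intro s
    rw [hSN, mem_filter, mem_levels]
    constructor
    · exact fun h => h.2
    · exact fun h => ⟨by omega, h⟩
  set T0 := SN.image t with hT0
  have lenT0 : ∀ v ∈ T0, N ≤ v.length := by
    intro v hv
    obtain ⟨s, hs, rfl⟩ := mem_image.1 hv
    have h1 := (ht1 s).length_le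
    have h2 := (memSN s).1 hs
    omega
  set K : ℝ := (SN.card : ℝ) with hK
  have hK0 : 0 ≤ K := Nat.cast_nonneg _
  set η := ε / (8 * (K + 1) * (C + 1)) with hη
  have hηp : 0 < η := by positivity
  have hAnti : AntiLe (fun v => ‖a.coeff v‖) 1 := fun A hA => (a.sum_le_norm A hA).trans ha
  obtain ⟨w', hw1, hw2, hw3, hw4⟩ := greedy T0 (fun v => ‖a.coeff v‖) hAnti hηp
  have hw0 : ∀ v, 0 ≤ w' v := fun v => (norm_nonneg _).trans (hw1 v)
  -- the new vector
  let y : C00 𝕜 := Finsupp.onFinset (a.supp ∪ T0)
    (fun v => if v ∈ T0 then ((w' v : ℝ) : 𝕜) else a.coeff v) (by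
      intro v hv
      by_cases h : v ∈ T0
      · exact mem_union_right _ h
      · rw [if_neg h] at hv
        exact mem_union_left _ ((C00.mem_supp a v).2 hv))
  have hy : ∀ v, y.coeff v = if v ∈ T0 then ((w' v : ℝ) : 𝕜) else a.coeff v := fun v => rfl
  have hyn : ∀ v, ‖y.coeff v‖ = w' v := by
    intro v
    rw [hy]
    split_ifs with h
    · rw [RCLike.norm_ofReal, abs_of_nonneg (hw0 v)]
    · exact (hw2 v h).symm
  set L := max (T0.sup List.length) N + 1 with hL
  have hLT : ∀ v ∈ T0, v.length < L := by
    intro v hv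
    have := Finset.le_sup (f := List.length) hv
    omega
  have hNL : N < L := by omega
  set P : ℝ := ((levels L).card : ℝ) with hP
  have hP0 : 0 ≤ P := Nat.cast_nonneg _
  set δ := ε / (8 * (P + 1) * (K + 1) * (C + 1)) with hδ
  have hδp : 0 < δ := by positivity
  refine ⟨y, L, δ, ?_, hδp, ?_⟩
  · refine y.norm_le_of 1 fun A hA => ?_
    simp only [hyn]
    exact hw3 A hA
  intro b hb hby n
  have hbAnti : AntiLe (fun v => ‖b.coeff v‖) 1 := fun A hA => (b.sum_le_norm A hA).trans hb
  -- pointwise bound
  set bad : Node → Prop := fun v => L ≤ v.length ∧ ¬ t (v.take N) <+: v with hbad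
  have hpt : ∀ v, φ v * ‖b.coeff v - a.coeff v‖ ≤
      (if v ∈ levels L then C * δ else 0) + (if v ∈ T0 then ε1 * w' v else 0) +
      restr φ N t v * ‖b.coeff v‖ +
      ∑ s ∈ SN, φ v * (if v.take N = s ∧ bad v then ‖b.coeff v‖ else 0) := by
    intro v
    have r0 : 0 ≤ restr φ N t v := by
      rw [restr]; split_ifs
      · exact hφ v
      · exact le_rfl
    have s0 : 0 ≤ ∑ s ∈ SN, φ v * (if v.take N = s ∧ bad v then ‖b.coeff v‖ else 0) := by
      refine sum_nonneg fun s _ => mul_nonneg (hφ v) ?_
      split_ifs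
      · exact norm_nonneg _
      · exact le_rfl
    by_cases hv : v ∈ levels L
    · have h1 : ‖b.coeff v - a.coeff v‖ ≤ δ + ‖y.coeff v - a.coeff v‖ := by
        calc ‖b.coeff v - a.coeff v‖ = ‖(b.coeff v - y.coeff v) + (y.coeff v - a.coeff v)‖ := by
              congr 1; ring
          _ ≤ ‖b.coeff v - y.coeff v‖ + ‖y.coeff v - a.coeff v‖ := norm_add_le _ _
          _ ≤ δ + ‖y.coeff v - a.coeff v‖ := by
              have := (hby v hv).le
              linarith
      have h2 : φ v * ‖y.coeff v - a.coeff v‖ ≤ if v ∈ T0 then ε1 * w' v else 0 := by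
        split_ifs with h
        · have ha0 : a.coeff v = 0 := by
            by_contra hne
            have := hN v hne
            have := lenT0 v h
            omega
          rw [ha0, sub_zero, hyn]
          refine mul_le_mul_of_nonneg_right ?_ (hw0 v)
          obtain ⟨s, hs, rfl⟩ := mem_image.1 h
          have := ht2 s (t s) (List.prefix_refl _)
          simpa using this
        · rw [hy, if_neg h]; simp
      have h3 : φ v * δ ≤ C * δ := mul_le_mul_of_nonneg_right (hC.single hφ v) hδp.le
      have h4 : 0 ≤ restr φ N t v * ‖b.coeff v‖ := mul_nonneg r0 (norm_nonneg _)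
      rw [if_pos hv]
      calc φ v * ‖b.coeff v - a.coeff v‖ ≤ φ v * (δ + ‖y.coeff v - a.coeff v‖) :=
            mul_le_mul_of_nonneg_left h1 (hφ v)
        _ = φ v * δ + φ v * ‖y.coeff v - a.coeff v‖ := by ring
        _ ≤ _ := by linarith
    · rw [if_neg hv]
      have hlen : L ≤ v.length := by
        rw [mem_levels] at hv
        omega
      have ha0 : a.coeff v = 0 := by
        by_contra hne
        have := hN v hne
        omega
      have hT : v ∉ T0 := fun h => by
        have := hLT v h
        omega
      rw [if_neg hT, ha0, sub_zero]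
      have htake : v.take N ∈ SN := by
        rw [memSN, List.length_take]
        omega
      by_cases hg : t (v.take N) <+: v
      · have : restr φ N t v = φ v := by
          rw [restr, if_pos ⟨by omega, hg⟩]
        rw [this]
        linarith
      · have h5 : φ v * ‖b.coeff v‖ ≤
            ∑ s ∈ SN, φ v * (if v.take N = s ∧ bad v then ‖b.coeff v‖ else 0) := by
          have h6 := single_le_sum
            (f := fun s => φ v * (if v.take N = s ∧ bad v then ‖b.coeff v‖ else 0))
            (s := SN) (a := v.take N) (fun s _ => by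
              refine mul_nonneg (hφ v) ?_
              split_ifs
              · exact norm_nonneg _
              · exact le_rfl) htake
          simp only [true_and] at h6
          rw [if_pos (show bad v from ⟨hlen, hg⟩)] at h6
          exact h6
        have h4 : 0 ≤ restr φ N t v * ‖b.coeff v‖ := mul_nonneg r0 (norm_nonneg _)
        linarith
  -- sum up
  have hsum1 : ∑ v ∈ levels n, (if v ∈ levels L then C * δ else 0) ≤ P * (C * δ) := by
    rw [← sum_filter, sum_const, nsmul_eq_mul]
    refine mul_le_mul_of_nonneg_right ?_ (mul_nonneg hC0 hδp.le)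
    rw [hP]
    exact_mod_cast card_le_card (fun v hv => (mem_filter.1 hv).2)
  have hsum2 : ∑ v ∈ levels n, (if v ∈ T0 then ε1 * w' v else 0) ≤ ε1 := by
    rw [← sum_filter, ← mul_sum]
    have : ∑ v ∈ levels n with v ∈ T0, w' v ≤ 1 := by
      refine hw3 _ ?_
      intro u hu v hv huv
      simp only [coe_filter, Set.mem_ofPred_eq] at hu hv
      obtain ⟨s, hs, rfl⟩ := mem_image.1 hu.2
      obtain ⟨s', hs', rfl⟩ := mem_image.1 hv.2
      have e1 : s <+: t s' := (ht1 s).trans huv
      have e2 : s = s' := by
        have l1 := (memSN s).1 hs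
        have l2 := (memSN s').1 hs'
        have := List.prefix_of_prefix_length_le e1 (ht1 s') (by omega)
        exact this.eq_of_length (by omega)
      rw [e2]
    calc ε1 * ∑ v ∈ levels n with v ∈ T0, w' v ≤ ε1 * 1 :=
          mul_le_mul_of_nonneg_left this hε1p.le
      _ = ε1 := mul_one _
  have hsum3 : ∑ v ∈ levels n, restr φ N t v * ‖b.coeff v‖ ≤ ε1 := by
    have h := dual_le (φ := restr φ N t) (w := fun v => ‖b.coeff v‖) (c := ε1) (m := 1)
      (fun v => by
        rw [restr]; split_ifs
        · exact hφ v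
        · exact le_rfl) (restr_chainLe hφ hε1p.le ht2) hbAnti n
    simpa using h
  have hsum4 : ∀ s ∈ SN, ∑ v ∈ levels n, φ v * (if v.take N = s ∧ bad v then ‖b.coeff v‖ else 0)
      ≤ C * (η + P * δ) := by
    intro s hs
    refine dual_le hφ hC ?_ n
    intro A' hA'
    rw [← sum_filter]
    set A1 := A'.filter (fun v => v.take N = s ∧ bad v) with hA1
    obtain ⟨A, hA, htA, hAlt⟩ := hw4 (t s) (mem_image_of_mem t hs)
    set A2 := A.filter (fun u => u.length < N ∨ u ∈ T0) with hA2
    have hts2 : t s ∈ A2 := mem_filter.2 ⟨htA, Or.inr (mem_image_of_mem t hs)⟩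
    have e1 : ∑ u ∈ A2, w' u = ∑ u ∈ A, w' u := by
      refine sum_filter_of_ne fun u _ hu => ?_
      by_contra hcon
      push Not at hcon
      apply hu
      rw [hw2 u hcon.2]
      by_contra hne
      have := hN u (fun h => hne (by rw [h]; simp))
      omega
    have lenA2 : ∀ u ∈ A2, u.length < L := by
      intro u hu
      rcases (mem_filter.1 hu).2 with h | h
      · omega
      · exact hLT u h
    have hdisj : Disjoint A2 A1 := by
      rw [disjoint_left]
      intro u hu hu1
      have h1 := lenA2 u hu
      have h2 := ((mem_filter.1 hu1).2).2.1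
      omega
    have hanti : IsAnti ((A2 ∪ A1 : Finset Node) : Set Node) := by
      have cross : ∀ u ∈ A2, ∀ v ∈ A1, ¬ u <+: v := by
        intro u hu v hv huv
        have hv2 := (mem_filter.1 hv).2
        have hvs : v.take N = s := hv2.1
        have hvL : L ≤ v.length := hv2.2.1
        have hvb : ¬ t (v.take N) <+: v := hv2.2.2
        rcases (mem_filter.1 hu).2 with h | h
        · have h1 : u <+: v.take N := by
            refine List.prefix_of_prefix_length_le huv (List.take_prefix N v) ?_
            rw [List.length_take]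
            omega
          rw [hvs] at h1
          have h2 : u <+: t s := h1.trans (ht1 s)
          have h3 : u = t s := hA u (mem_filter.1 hu).1 (t s) htA h2
          have h4 := lenT0 (t s) (mem_image_of_mem t hs)
          rw [← h3] at h4
          omega
        · obtain ⟨s', hs', rfl⟩ := mem_image.1 h
          have e3 : s' <+: v := (ht1 s').trans huv
          have l1 := (memSN s').1 hs'
          have l2 := (memSN s).1 hs
          have e4 : s' <+: v.take N := by
            refine List.prefix_of_prefix_length_le e3 (List.take_prefix N v) ?_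
            rw [List.length_take]
            omega
          rw [hvs] at e4
          have e5 : s' = s := e4.eq_of_length (by omega)
          rw [hvs, ← e5] at hvb
          exact hvb huv
      intro u hu v hv huv
      simp only [coe_union, Set.mem_union, mem_coe] at hu hv
      rcases hu with hu | hu <;> rcases hv with hv | hv
      · exact hA u (mem_filter.1 hu).1 v (mem_filter.1 hv).1 huv
      · exact absurd huv (cross u hu v hv)
      · exfalso
        have h1 := lenA2 v hv
        have h2 : L ≤ u.length := ((mem_filter.1 hu).2).2.1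
        have h3 := huv.length_le
        omega
      · exact hA' u (mem_filter.1 hu).1 v (mem_filter.1 hv).1 huv
    have e2 := hbAnti _ hanti
    rw [sum_union hdisj] at e2
    have e3 : ∑ u ∈ A2, w' u - P * δ ≤ ∑ u ∈ A2, ‖b.coeff u‖ := by
      have : ∑ u ∈ A2, (w' u - δ) ≤ ∑ u ∈ A2, ‖b.coeff u‖ := by
        refine sum_le_sum fun u hu => ?_
        have h1 := hby u ((mem_levels L u).2 (lenA2 u hu))
        have h2 : ‖y.coeff u‖ ≤ ‖b.coeff u‖ + ‖b.coeff u - y.coeff u‖ := by
          have := norm_sub_le (b.coeff u) (b.coeff u - y.coeff u)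
          simpa using this
        rw [hyn] at h2
        linarith
      rw [sum_sub_distrib, sum_const, nsmul_eq_mul] at this
      have hcard : (A2.card : ℝ) ≤ P := by
        rw [hP]
        exact_mod_cast card_le_card (fun u hu => (mem_levels L u).2 (lenA2 u hu))
      have := mul_le_mul_of_nonneg_right hcard hδp.le
      linarith
    have e4 : (fun v => ‖b.coeff v‖) = fun v => ‖b.coeff v‖ := rfl
    linarith
  have hsum5 : ∑ v ∈ levels n, ∑ s ∈ SN, φ v * (if v.take N = s ∧ bad v then ‖b.coeff v‖ else 0)
      ≤ K * (C * (η + P * δ)) := by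
    rw [sum_comm]
    refine (sum_le_sum hsum4).trans (le_of_eq ?_)
    rw [sum_const, nsmul_eq_mul]
  have hfin : P * (C * δ) + ε1 + ε1 + K * (C * (η + P * δ)) ≤ ε := by
    have hP1 : P * δ * (8 * (K + 1) * (C + 1)) ≤ ε := by
      have : δ * (8 * (P + 1) * (K + 1) * (C + 1)) = ε := by
        rw [hδ]; field_simp
      have h0 : 0 ≤ δ * (8 * (K + 1) * (C + 1)) := by positivity
      nlinarith
    have hη1 : η * (8 * (K + 1) * (C + 1)) = ε := by
      rw [hη]; field_simp
    have a1 : P * δ * C * 8 ≤ ε := by
      have : 0 ≤ P * δ * (8 * (K * C + K + 1)) := by positivity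
      nlinarith
    have a2 : K * C * η * 8 ≤ ε := by
      have : 0 ≤ η * (8 * (K + C + 1)) := by positivity
      nlinarith
    have a3 : K * C * (P * δ) * 8 ≤ ε := by
      have : 0 ≤ P * δ * (8 * (K + C + 1)) := by positivity
      nlinarith
    rw [hε1]
    nlinarith
  calc ∑ v ∈ levels n, φ v * ‖b.coeff v - a.coeff v‖ ≤
      ∑ v ∈ levels n, ((if v ∈ levels L then C * δ else 0) + (if v ∈ T0 then ε1 * w' v else 0) +
      restr φ N t v * ‖b.coeff v‖ +
      ∑ s ∈ SN, φ v * (if v.take N = s ∧ bad v then ‖b.coeff v‖ else 0)) :=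
        sum_le_sum fun v _ => hpt v
    _ ≤ P * (C * δ) + ε1 + ε1 + K * (C * (η + P * δ)) := by
        rw [sum_add_distrib, sum_add_distrib, sum_add_distrib]
        linarith
    _ ≤ ε := hfin

end Pool.Agent.StoppingTime
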