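import Mathlib

set_option autoImplicit false

/-!
Definitions for the stopping time space and for countable pi-bases.
-/

namespace Pool.Agent.StoppingTime

/-- The nodes of the infinite binary tree: finite 0-1 sequences (the empty one included).
`s <+: t` (Mathlib) says that `s` is an initial segment of `t`. -/
abbrev Node : Type := List Bool

/-- A set of nodes is an antichain if its elements are pairwise incomparable for the
initial segment order. -/
def IsAnti (A : Set Node) : Prop := ∀ s ∈ A, ∀ t ∈ A, s <+: t → s = t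

/-- The vector space of finitely supported families of scalars indexed by the nodes. -/
def C00 (𝕜 : Type) [RCLike 𝕜] : Type := Node →₀ 𝕜

namespace C00

variable (𝕜 : Type) [RCLike 𝕜]

noncomputable instance : AddCommGroup (C00 𝕜) := Finsupp.instAddCommGroup

noncomputable instance : Module 𝕜 (C00 𝕜) := Finsupp.module Node 𝕜

variable {𝕜}

/-- The coordinate `a_t` of a finitely supported family. -/
def coeff (a : C00 𝕜) (t : Node) : 𝕜 := DFunLike.coe (F := Node →₀ 𝕜) a t

/-- The stopping time norm: the supremum over all antichains `A` of `∑_{t ∈ A} |a_t|`. -/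
noncomputable instance : Norm (C00 𝕜) :=
  ⟨fun a => ⨆ A : {A : Set Node // IsAnti A}, ∑' t : A.1, ‖a.coeff t‖⟩

theorem norm_def (a : C00 𝕜) :
    ‖a‖ = ⨆ A : {A : Set Node // IsAnti A}, ∑' t : A.1, ‖a.coeff t‖ := rfl

/-- The support of a finitely supported family. -/
def supp (a : C00 𝕜) : Finset Node := Finsupp.support (M := 𝕜) a

theorem mem_supp (a : C00 𝕜) (t : Node) : t ∈ a.supp ↔ a.coeff t ≠ 0 :=
  Finsupp.mem_support_iff (M := 𝕜)

theorem coeff_add (a b : C00 𝕜) (t : Node) : (a + b).coeff t = a.coeff t + b.coeff t := rfl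

theorem coeff_smul (c : 𝕜) (a : C00 𝕜) (t : Node) : (c • a).coeff t = c * a.coeff t := rfl

theorem coeff_zero (t : Node) : (0 : C00 𝕜).coeff t = 0 := rfl

theorem ext' {a b : C00 𝕜} (h : ∀ t, a.coeff t = b.coeff t) : a = b := Finsupp.ext h

open Classical in
theorem tsum_eq (a : C00 𝕜) (A : Set Node) :
    ∑' t : A, ‖a.coeff t‖ = ∑ t ∈ a.supp with t ∈ A, ‖a.coeff t‖ := by
  rw [tsum_subtype A (fun t => ‖a.coeff t‖), tsum_eq_sum (s := a.supp)]
  · rw [Finset.sum_filter]
    refine Finset.sum_congr rfl fun t _ => ?_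
    simp [Set.indicator]
  · intro t ht
    have : a.coeff t = 0 := by
      by_contra h
      exact ht ((mem_supp a t).2 h)
    simp [Set.indicator, this]

theorem bddAbove (a : C00 𝕜) :
    BddAbove (Set.range fun A : {A : Set Node // IsAnti A} => ∑' t : A.1, ‖a.coeff t‖) := by
  classical
  refine ⟨∑ t ∈ a.supp, ‖a.coeff t‖, ?_⟩
  rintro _ ⟨A, rfl⟩
  simp only [tsum_eq]
  exact Finset.sum_le_sum_of_subset_of_nonneg (Finset.filter_subset _ _)
    fun _ _ _ => norm_nonneg _

theorem isAnti_empty : IsAnti ∅ := fun _ h => absurd h (Set.notMem_empty _)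

theorem isAnti_singleton (t : Node) : IsAnti {t} := by
  intro s hs u hu _
  rw [Set.mem_singleton_iff.1 hs, Set.mem_singleton_iff.1 hu]

instance : Nonempty {A : Set Node // IsAnti A} := ⟨⟨∅, isAnti_empty⟩⟩

/-- Sums over finite antichains are bounded by the norm. -/
theorem sum_le_norm (a : C00 𝕜) (A : Finset Node) (hA : IsAnti (A : Set Node)) :
    ∑ t ∈ A, ‖a.coeff t‖ ≤ ‖a‖ := by
  have h := le_ciSup (bddAbove a) ⟨(A : Set Node), hA⟩
  rw [norm_def]
  refine le_trans (le_of_eq ?_) h
  exact (Finset.tsum_subtype A (fun t => ‖a.coeff t‖)).symm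

/-- A bound for the sums over all finite antichains bounds the norm. -/
theorem norm_le_of (a : C00 𝕜) (c : ℝ)
    (h : ∀ A : Finset Node, IsAnti (A : Set Node) → ∑ t ∈ A, ‖a.coeff t‖ ≤ c) : ‖a‖ ≤ c := by
  classical
  rw [norm_def]
  refine ciSup_le fun A => ?_
  rw [tsum_eq]
  refine h _ ?_
  intro s hs t ht hst
  simp only [Finset.coe_filter, Set.mem_ofPred_eq] at hs ht
  exact A.2 s hs.2 t ht.2 hst

theorem norm_nonneg' (a : C00 𝕜) : 0 ≤ ‖a‖ := by
  have := sum_le_norm a ∅ (by simpa using isAnti_empty)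
  simpa using this

theorem coeff_le_norm (a : C00 𝕜) (t : Node) : ‖a.coeff t‖ ≤ ‖a‖ := by
  have := sum_le_norm a {t} (by simpa using isAnti_singleton t)
  simpa using this

theorem norm_smul_le' (c : 𝕜) (a : C00 𝕜) : ‖c • a‖ ≤ ‖c‖ * ‖a‖ := by
  refine norm_le_of _ _ fun A hA => ?_
  have : ∑ t ∈ A, ‖(c • a).coeff t‖ = ‖c‖ * ∑ t ∈ A, ‖a.coeff t‖ := by
    rw [Finset.mul_sum]
    refine Finset.sum_congr rfl fun t _ => ?_
    rw [coeff_smul, norm_mul]
  rw [this]
  exact mul_le_mul_of_nonneg_left (sum_le_norm a A hA) (norm_nonneg _)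

theorem core : NormedSpace.Core 𝕜 (C00 𝕜) where
  norm_nonneg := norm_nonneg'
  norm_smul c a := by
    refine le_antisymm (norm_smul_le' c a) ?_
    rcases eq_or_ne c 0 with rfl | hc
    · simpa using norm_nonneg' _
    · have h := norm_smul_le' c⁻¹ (c • a)
      rw [smul_smul, inv_mul_cancel₀ hc, one_smul, norm_inv] at h
      have hc' : 0 < ‖c‖ := norm_pos_iff.2 hc
      calc ‖c‖ * ‖a‖ ≤ ‖c‖ * (‖c‖⁻¹ * ‖c • a‖) := mul_le_mul_of_nonneg_left h hc'.le
        _ = ‖c • a‖ := by field_simp
  norm_triangle a b := by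
    refine norm_le_of _ _ fun A hA => ?_
    calc ∑ t ∈ A, ‖(a + b).coeff t‖ ≤ ∑ t ∈ A, (‖a.coeff t‖ + ‖b.coeff t‖) :=
          Finset.sum_le_sum fun t _ => by rw [coeff_add]; exact norm_add_le _ _
      _ = ∑ t ∈ A, ‖a.coeff t‖ + ∑ t ∈ A, ‖b.coeff t‖ := Finset.sum_add_distrib
      _ ≤ ‖a‖ + ‖b‖ := add_le_add (sum_le_norm a A hA) (sum_le_norm b A hA)
  norm_eq_zero_iff a := by
    constructor
    · intro h
      refine ext' fun t => ?_
      have := coeff_le_norm a t
      rw [h] at this
      rw [coeff_zero]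
      exact norm_le_zero_iff.1 this
    · rintro rfl
      refine le_antisymm (norm_le_of _ _ fun A _ => ?_) (norm_nonneg' _)
      simp [coeff_zero]

noncomputable instance : NormedAddCommGroup (C00 𝕜) := NormedAddCommGroup.ofCore core

noncomputable instance : NormedSpace 𝕜 (C00 𝕜) := NormedSpace.ofCore core

end C00

/-- The stopping time space over `𝕜` (`ℝ` or `ℂ`): the completion of the space of finitely
supported families under the stopping time norm. -/
abbrev StoppingTimeSpace (𝕜 : Type) [RCLike 𝕜] : Type := UniformSpace.Completion (C00 𝕜)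

/-- The closed unit ball of a normed space `X`, as a subset of `X` with its weak topology. -/
def weakBall (𝕜 X : Type) [RCLike 𝕜] [NormedAddCommGroup X] [NormedSpace 𝕜 X] :
    Set (WeakSpace 𝕜 X) :=
  {x | ‖(toWeakSpace 𝕜 X).symm x‖ ≤ 1}

/-- A topological space `Y` has a countable pi-base: there is a countable family of nonempty open
sets such that every nonempty open set contains a member of the family. -/
def HasCountablePiBase (Y : Type) [TopologicalSpace Y] : Prop :=
  ∃ 𝒰 : Set (Set Y), 𝒰.Countable ∧ (∀ U ∈ 𝒰, IsOpen U ∧ U.Nonempty) ∧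
    ∀ W : Set Y, IsOpen W → W.Nonempty → ∃ U ∈ 𝒰, U ⊆ W

/-- The closed unit ball of the normed space `X`, with its relative weak topology, has a countable
pi-base. -/
def BallHasCountablePiBase (𝕜 X : Type) [RCLike 𝕜] [NormedAddCommGroup X] [NormedSpace 𝕜 X] :
    Prop :=
  HasCountablePiBase (weakBall 𝕜 X)

end Pool.Agent.StoppingTime
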