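import Pool.Agent.StoppingTime.Comb

set_option autoImplicit false

/-!
From the combinatorial core to the countable pi-base.
-/

namespace Pool.Agent.StoppingTime

open Finset UniformSpace

variable {𝕜 : Type} [RCLike 𝕜]

/-- The unit vectors. -/
noncomputable def unitVec (t : Node) : C00 𝕜 := Finsupp.single (M := 𝕜) t 1

theorem coeff_unitVec (t v : Node) : (unitVec t : C00 𝕜).coeff v = if v = t then 1 else 0 := by
  change (Finsupp.single t (1 : 𝕜)) v = _
  rw [Finsupp.single_apply]
  by_cases h : v = t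
  · subst h; simp
  · rw [if_neg h, if_neg (fun h' => h h'.symm)]

theorem eq_sum_unitVec (a : C00 𝕜) (F : Finset Node) (hF : ∀ v, a.coeff v ≠ 0 → v ∈ F) :
    a = ∑ v ∈ F, a.coeff v • (unitVec v : C00 𝕜) := by
  have coeff_sum : ∀ (G : Finset Node) (f : Node → C00 𝕜) (u : Node),
      (∑ v ∈ G, f v).coeff u = ∑ v ∈ G, (f v).coeff u := by
    intro G f u
    classical
    induction G using Finset.induction_on with
    | empty => simp [C00.coeff_zero]
    | insert x G hx ih => rw [sum_insert hx, sum_insert hx, C00.coeff_add, ih]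
  refine C00.ext' fun u => ?_
  rw [coeff_sum]
  simp only [C00.coeff_smul, coeff_unitVec]
  by_cases hu : u ∈ F
  · rw [sum_eq_single u]
    · simp
    · intro v _ hv; rw [if_neg (fun h => hv h.symm), mul_zero]
    · intro h; exact absurd hu h
  · rw [sum_eq_zero]
    · by_contra h; exact hu (hF u h)
    · intro v hv
      rw [if_neg, mul_zero]
      rintro rfl
      exact hu hv

/-- A functional on the stopping time space gives a weight on the nodes. -/
noncomputable def wt (f : StrongDual 𝕜 (StoppingTimeSpace 𝕜)) (t : Node) : ℝ :=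
  ‖f ((unitVec t : C00 𝕜) : StoppingTimeSpace 𝕜)‖

theorem coe_sum' (G : Finset Node) (g : Node → C00 𝕜) :
    ((∑ v ∈ G, g v : C00 𝕜) : StoppingTimeSpace 𝕜) = ∑ v ∈ G, (g v : StoppingTimeSpace 𝕜) := by
  classical
  induction G using Finset.induction_on with
  | empty => simp
  | insert x G hx ih => rw [sum_insert hx, sum_insert hx, Completion.coe_add, ih]

/-- The chain sums of the weight of a functional are bounded by its norm. -/
theorem wt_chainLe (f : StrongDual 𝕜 (StoppingTimeSpace 𝕜)) : ChainLe (wt f) ‖f‖ := by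
  classical
  intro u
  -- unimodular coefficients
  set c : Node → 𝕜 := fun v =>
    if wt f v = 0 then 0 else
      starRingEnd 𝕜 (f ((unitVec v : C00 𝕜) : StoppingTimeSpace 𝕜)) / ((wt f v : ℝ) : 𝕜) with hc
  have hcn : ∀ v, ‖c v‖ ≤ 1 := by
    intro v
    rw [hc]
    simp only
    split_ifs with h
    · simp
    · rw [norm_div, RCLike.norm_conj, RCLike.norm_ofReal, wt, abs_norm]
      exact div_self_le_one _
  have hcf : ∀ v, c v * f ((unitVec v : C00 𝕜) : StoppingTimeSpace 𝕜) = ((wt f v : ℝ) : 𝕜) := by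
    intro v
    rw [hc]
    simp only
    split_ifs with h
    · rw [h]; simp
    · rw [div_mul_eq_mul_div, RCLike.conj_mul, ← wt]
      rw [sq, mul_div_assoc, div_self, mul_one]
      exact_mod_cast h
  set x : C00 𝕜 := ∑ k ∈ range (u.length + 1), c (u.take k) • (unitVec (u.take k) : C00 𝕜) with hx
  have hcoeff : ∀ v, x.coeff v = if v <+: u then c v else 0 := by
    intro v
    have coeff_sum : ∀ (G : Finset ℕ) (g : ℕ → C00 𝕜) (u : Node),
        (∑ v ∈ G, g v).coeff u = ∑ v ∈ G, (g v).coeff u := by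
      intro G f u
      induction G using Finset.induction_on with
      | empty => simp [C00.coeff_zero]
      | insert x G hx ih => rw [sum_insert hx, sum_insert hx, C00.coeff_add, ih]
    rw [hx, coeff_sum]
    simp only [C00.coeff_smul, coeff_unitVec]
    split_ifs with h
    · rw [sum_eq_single v.length]
      · have : u.take v.length = v := (List.prefix_iff_eq_take.1 h).symm
        rw [this]; simp
      · intro k hk hkv
        rw [if_neg, mul_zero]
        rintro rfl
        apply hkv
        rw [List.length_take]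
        simp at hk
        omega
      · intro h'
        exfalso
        apply h'
        have := h.length_le
        simp
        omega
    · refine sum_eq_zero fun k _ => ?_
      rw [if_neg, mul_zero]
      rintro rfl
      exact h (List.take_prefix k u)
  have hxn : ‖x‖ ≤ 1 := by
    refine x.norm_le_of 1 fun A hA => ?_
    simp only [hcoeff]
    by_cases hne : ∃ v ∈ A, v <+: u
    · obtain ⟨v, hv, hvu⟩ := hne
      rw [sum_eq_single v]
      · rw [if_pos hvu]; exact hcn v
      · intro v' hv' hne'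
        rw [if_neg, norm_zero]
        intro hv'u
        apply hne'
        rcases le_total v.length v'.length with hl | hl
        · exact (hA v hv v' hv' (List.prefix_of_prefix_length_le hvu hv'u hl)).symm
        · exact hA v' hv' v hv (List.prefix_of_prefix_length_le hv'u hvu hl)
      · intro h; exact absurd hv h
    · push Not at hne
      rw [sum_eq_zero]
      · exact zero_le_one
      · intro v hv
        rw [if_neg (hne v hv), norm_zero]
  have hfx : f (x : StoppingTimeSpace 𝕜) = ((∑ k ∈ range (u.length + 1), wt f (u.take k) : ℝ) : 𝕜) := by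
    have : (x : StoppingTimeSpace 𝕜) = ∑ k ∈ range (u.length + 1),
        c (u.take k) • ((unitVec (u.take k) : C00 𝕜) : StoppingTimeSpace 𝕜) := by
      have h1 := map_sum (Completion.toComplL : C00 𝕜 →L[𝕜] StoppingTimeSpace 𝕜)
        (fun k => c (u.take k) • (unitVec (u.take k) : C00 𝕜)) (range (u.length + 1))
      simp only [map_smul, Completion.coe_toComplL] at h1
      rw [hx]
      exact h1
    rw [this, map_sum]
    simp only [map_smul, smul_eq_mul, hcf]
    norm_cast
  have h1 := f.le_opNorm (x : StoppingTimeSpace 𝕜)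
  rw [hfx, RCLike.norm_ofReal, Completion.norm_coe] at h1
  calc ∑ k ∈ range (u.length + 1), wt f (u.take k)
      ≤ |∑ k ∈ range (u.length + 1), wt f (u.take k)| := le_abs_self _
    _ ≤ ‖f‖ * ‖x‖ := h1
    _ ≤ ‖f‖ * 1 := mul_le_mul_of_nonneg_left hxn (norm_nonneg _)
    _ = ‖f‖ := mul_one _

/-- The coordinate functional on finitely supported families. -/
noncomputable def coordL (t : Node) : C00 𝕜 →L[𝕜] 𝕜 :=
  LinearMap.mkContinuous
    { toFun := fun a => a.coeff t
      map_add' := fun _ _ => rfl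
      map_smul' := fun _ _ => rfl } 1 (fun a => by
        rw [one_mul]; exact a.coeff_le_norm t)

theorem denseRange_toComplL :
    DenseRange (Completion.toComplL : C00 𝕜 →L[𝕜] StoppingTimeSpace 𝕜) := by
  rw [Completion.coe_toComplL]
  exact Completion.denseRange_coe

theorem isUniformInducing_toComplL :
    IsUniformInducing (Completion.toComplL : C00 𝕜 →L[𝕜] StoppingTimeSpace 𝕜) := by
  rw [Completion.coe_toComplL]
  exact Completion.isUniformInducing_coe _

/-- The coordinate functional on the stopping time space. -/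
noncomputable def coord (t : Node) : StrongDual 𝕜 (StoppingTimeSpace 𝕜) :=
  (coordL t).extend (Completion.toComplL : C00 𝕜 →L[𝕜] StoppingTimeSpace 𝕜)

theorem coord_coe (t : Node) (a : C00 𝕜) : coord t (a : StoppingTimeSpace 𝕜) = a.coeff t := by
  have := ContinuousLinearMap.extend_eq (coordL t : C00 𝕜 →L[𝕜] 𝕜)
    (e := (Completion.toComplL : C00 𝕜 →L[𝕜] StoppingTimeSpace 𝕜))
    denseRange_toComplL isUniformInducing_toComplL a
  rw [Completion.coe_toComplL] at this
  exact this

/-- Finitely supported vectors of norm less than one are dense in the ball. -/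
theorem ball_subset_closure (x : StoppingTimeSpace 𝕜) (hx : ‖x‖ ≤ 1) :
    x ∈ closure {z : StoppingTimeSpace 𝕜 | ∃ a : C00 𝕜, ‖a‖ ≤ 1 ∧ (a : StoppingTimeSpace 𝕜) = z} := by
  have h1 : x ∈ closure (Metric.ball (0 : StoppingTimeSpace 𝕜) 1) := by
    let _ : NormedSpace ℝ (StoppingTimeSpace 𝕜) := NormedSpace.restrictScalars ℝ 𝕜 _
    rw [closure_ball _ one_ne_zero]
    simpa using hx
  have h2 : Metric.ball (0 : StoppingTimeSpace 𝕜) 1 ⊆
      closure (Metric.ball (0 : StoppingTimeSpace 𝕜) 1 ∩ Set.range ((↑) : C00 𝕜 → _)) :=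
    Completion.denseRange_coe.open_subset_closure_inter Metric.isOpen_ball
  have h3 := closure_mono h2 h1
  rw [closure_closure] at h3
  refine closure_mono ?_ h3
  rintro z ⟨hz, a, rfl⟩
  refine ⟨a, ?_, rfl⟩
  have : ‖(a : StoppingTimeSpace 𝕜)‖ < 1 := by simpa using hz
  rw [Completion.norm_coe] at this
  exact this.le

/-- Basic weak neighbourhoods. -/
theorem exists_finset_of_isOpen {X : Type} [NormedAddCommGroup X] [NormedSpace 𝕜 X]
    {V : Set (WeakSpace 𝕜 X)} (hV : IsOpen V) {x0 : X} (hx0 : toWeakSpace 𝕜 X x0 ∈ V) :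
    ∃ (F : Finset (StrongDual 𝕜 X)) (ε : ℝ), 0 < ε ∧
      ∀ x : X, (∀ f ∈ F, ‖f x - f x0‖ < ε) → toWeakSpace 𝕜 X x ∈ V := by
  obtain ⟨O, hO, rfl⟩ := isOpen_induced_iff.1 hV
  rw [isOpen_pi_iff] at hO
  obtain ⟨I, u, hu, hsub⟩ := hO _ hx0
  have : ∀ f ∈ I, ∃ ε > 0, Metric.ball (f x0) ε ⊆ u f := fun f hf =>
    Metric.isOpen_iff.1 (hu f hf).1 _ (hu f hf).2
  choose! r hr hball using this
  obtain ⟨ε, hε, hle⟩ : ∃ ε > 0, ∀ f ∈ I, ε ≤ r f := by
    classical
    clear hsub hu hball
    induction I using Finset.induction_on with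
    | empty => exact ⟨1, one_pos, by simp⟩
    | insert g I hg ih =>
      obtain ⟨ε, hε, h⟩ := ih (fun f hf => hr f (mem_insert_of_mem hf))
      refine ⟨min ε (r g), lt_min hε (hr g (mem_insert_self _ _)), ?_⟩
      intro f hf
      rcases Finset.mem_insert.1 hf with rfl | hf
      · exact min_le_right _ _
      · exact (min_le_left _ _).trans (h f hf)
  refine ⟨I, ε, hε, fun x hx => ?_⟩
  apply hsub
  intro f hf
  apply hball f hf
  rw [Metric.mem_ball, dist_eq_norm]
  exact (hx f hf).trans_le (hle f hf)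

/-- The members of the countable pi-base. -/
def cell (L n m : ℕ) : Set (weakBall 𝕜 (StoppingTimeSpace 𝕜)) :=
  {x | ∀ t : levels L, ‖coord (t : Node) ((toWeakSpace 𝕜 (StoppingTimeSpace 𝕜)).symm x.1) -
    TopologicalSpace.denseSeq (levels L → 𝕜) m t‖ < 1 / ((n : ℝ) + 1)}

theorem isOpen_cell (L n m : ℕ) : IsOpen (cell L n m : Set (weakBall 𝕜 (StoppingTimeSpace 𝕜))) := by
  have : (cell L n m : Set (weakBall 𝕜 (StoppingTimeSpace 𝕜))) =
      ⋂ t : levels L, {x | ‖coord (t : Node) ((toWeakSpace 𝕜 (StoppingTimeSpace 𝕜)).symm x.1) -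
    TopologicalSpace.denseSeq (levels L → 𝕜) m t‖ < 1 / ((n : ℝ) + 1)} := by
    ext x
    simp only [cell, Set.mem_iInter, Set.mem_ofPred_eq]
  rw [this]
  refine isOpen_iInter_of_finite fun t => ?_
  have hcont : Continuous fun x : weakBall 𝕜 (StoppingTimeSpace 𝕜) =>
      coord (t : Node) ((toWeakSpace 𝕜 (StoppingTimeSpace 𝕜)).symm x.1) := by
    have h1 : Continuous fun x : WeakSpace 𝕜 (StoppingTimeSpace 𝕜) =>
      coord (t : Node) ((toWeakSpace 𝕜 (StoppingTimeSpace 𝕜)).symm x) :=
        WeakBilin.eval_continuous (topDualPairing 𝕜 (StoppingTimeSpace 𝕜)).flip (coord (t : Node))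
    exact h1.comp continuous_subtype_val
  exact isOpen_lt ((hcont.sub continuous_const).norm) continuous_const

theorem main : HasCountablePiBase (weakBall 𝕜 (StoppingTimeSpace 𝕜)) := by
  classical
  refine ⟨{U | U.Nonempty ∧ ∃ p : ℕ × ℕ × ℕ, U = cell p.1 p.2.1 p.2.2}, ?_, ?_, ?_⟩
  · refine Set.Countable.mono (s₂ := Set.range fun p : ℕ × ℕ × ℕ =>
      (cell p.1 p.2.1 p.2.2 : Set (weakBall 𝕜 (StoppingTimeSpace 𝕜)))) ?_ (Set.countable_range _)
    rintro U ⟨_, p, rfl⟩
    exact ⟨p, rfl⟩
  · rintro U ⟨hU, p, rfl⟩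
    exact ⟨isOpen_cell _ _ _, hU⟩
  intro W hW hWne
  obtain ⟨V, hV, rfl⟩ := isOpen_induced_iff.1 hW
  obtain ⟨x1, hx1⟩ := hWne
  -- a finitely supported point of the open set
  have hVn : IsOpen ((toWeakSpace 𝕜 (StoppingTimeSpace 𝕜)) ⁻¹' V) :=
    hV.preimage (toWeakSpaceCLM 𝕜 (StoppingTimeSpace 𝕜)).continuous
  obtain ⟨_, ha', a, ha, rfl⟩ : (((toWeakSpace 𝕜 (StoppingTimeSpace 𝕜)) ⁻¹' V) ∩
      {z : StoppingTimeSpace 𝕜 | ∃ a : C00 𝕜, ‖a‖ ≤ 1 ∧ (a : StoppingTimeSpace 𝕜) = z}).Nonempty := by
    have h := ball_subset_closure ((toWeakSpace 𝕜 (StoppingTimeSpace 𝕜)).symm x1.1) x1.2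
    rw [mem_closure_iff] at h
    exact h _ hVn hx1
  obtain ⟨F, ε, hε, hF⟩ := exists_finset_of_isOpen hV ha'
  set φ : Node → ℝ := fun v => ∑ f ∈ F, wt f v with hφdef
  have hφ : ∀ v, 0 ≤ φ v := fun v => sum_nonneg fun f _ => norm_nonneg _
  have hC : ChainLe φ (∑ f ∈ F, ‖f‖) := by
    intro u
    rw [hφdef]
    simp only
    rw [sum_comm]
    exact sum_le_sum fun f _ => wt_chainLe f u
  obtain ⟨y, L, δ, hy, hδ, hb⟩ := core_weights hφ hC a ha (half_pos hε)
  obtain ⟨n, hn⟩ := exists_nat_one_div_lt (half_pos hδ)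
  have hnpos : (0 : ℝ) < 1 / ((n : ℝ) + 1) := by positivity
  obtain ⟨m, hm⟩ := (TopologicalSpace.denseRange_denseSeq (levels L → 𝕜)).exists_dist_lt
    (fun t : levels L => y.coeff (t : Node)) hnpos
  have hyball : toWeakSpace 𝕜 (StoppingTimeSpace 𝕜) (y : StoppingTimeSpace 𝕜) ∈
      weakBall 𝕜 (StoppingTimeSpace 𝕜) := by
    change ‖(y : StoppingTimeSpace 𝕜)‖ ≤ 1
    rw [Completion.norm_coe]
    exact hy
  refine ⟨cell L n m, ⟨⟨⟨_, hyball⟩, ?_⟩, (L, n, m), rfl⟩, ?_⟩
  · intro t
    have h1 := (dist_pi_lt_iff hnpos).1 hm t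
    rw [dist_eq_norm] at h1
    change ‖coord (t : Node) (y : StoppingTimeSpace 𝕜) - _‖ < _
    rw [coord_coe]
    exact h1
  · rintro ⟨x, hxball⟩ hx
    change x ∈ V
    set z : StoppingTimeSpace 𝕜 := (toWeakSpace 𝕜 (StoppingTimeSpace 𝕜)).symm x with hz
    have hzball : ‖z‖ ≤ 1 := hxball
    have hxz : x = toWeakSpace 𝕜 (StoppingTimeSpace 𝕜) z := rfl
    rw [hxz]
    apply hF
    intro f hf
    -- approximate `z` by finitely supported vectors
    set O : Set (StoppingTimeSpace 𝕜) := {z | ∀ t : levels L, ‖coord (t : Node) z -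
      y.coeff (t : Node)‖ < δ} with hO
    have hOopen : IsOpen O := by
      have : O = ⋂ t : levels L, {z | ‖coord (t : Node) z - y.coeff (t : Node)‖ < δ} := by
        ext x
        simp only [hO, Set.mem_iInter, Set.mem_ofPred_eq]
      rw [this]
      refine isOpen_iInter_of_finite fun t => ?_
      exact isOpen_lt (((coord (t : Node)).continuous.sub continuous_const).norm) continuous_const
    have hzO : z ∈ O := by
      intro t
      have h1 := (dist_pi_lt_iff hnpos).1 hm t
      rw [dist_eq_norm] at h1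
      have h2 := hx t
      calc ‖coord (t : Node) z - y.coeff (t : Node)‖
          = ‖(coord (t : Node) z - TopologicalSpace.denseSeq (levels L → 𝕜) m t) -
            (y.coeff (t : Node) - TopologicalSpace.denseSeq (levels L → 𝕜) m t)‖ := by
              congr 1; ring
        _ ≤ ‖coord (t : Node) z - TopologicalSpace.denseSeq (levels L → 𝕜) m t‖ +
            ‖y.coeff (t : Node) - TopologicalSpace.denseSeq (levels L → 𝕜) m t‖ :=
              norm_sub_le _ _
        _ < 1 / ((n : ℝ) + 1) + 1 / ((n : ℝ) + 1) := add_lt_add h2 h1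
        _ < δ := by linarith
    have hzcl : z ∈ closure (O ∩ {z : StoppingTimeSpace 𝕜 | ∃ a : C00 𝕜, ‖a‖ ≤ 1 ∧
        (a : StoppingTimeSpace 𝕜) = z}) := by
      rw [mem_closure_iff]
      intro O' hO' hzO'
      have h := ball_subset_closure z hzball
      rw [mem_closure_iff] at h
      obtain ⟨w, hw1, hw2⟩ := h (O' ∩ O) (hO'.inter hOopen) ⟨hzO', hzO⟩
      exact ⟨w, hw1.1, hw1.2, hw2⟩
    have hclosed : IsClosed {w : StoppingTimeSpace 𝕜 |
        ‖f w - f (a : StoppingTimeSpace 𝕜)‖ ≤ ε / 2} :=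
      isClosed_le ((f.continuous.sub continuous_const).norm) continuous_const
    have hzle : ‖f z - f (a : StoppingTimeSpace 𝕜)‖ ≤ ε / 2 := by
      refine hclosed.closure_subset_iff.2 ?_ hzcl
      rintro w ⟨hwO, b, hb1, rfl⟩
      change ‖f (b : StoppingTimeSpace 𝕜) - f (a : StoppingTimeSpace 𝕜)‖ ≤ ε / 2
      have hcl : ∀ v ∈ levels L, ‖b.coeff v - y.coeff v‖ < δ := by
        intro v hv
        have := hwO ⟨v, hv⟩
        rwa [coord_coe] at this
      -- a level containing both supports
      obtain ⟨N, hN⟩ : ∃ N, ∀ v, (b - a).coeff v ≠ 0 → v ∈ levels N := by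
        refine ⟨(b - a).supp.sup List.length + 1, fun v hv => ?_⟩
        rw [mem_levels]
        exact Nat.lt_succ_of_le (Finset.le_sup (f := List.length) ((C00.mem_supp _ v).2 hv))
      have h1 := hb b hb1 hcl N
      have hcoeff : ∀ v, (b - a).coeff v = b.coeff v - a.coeff v := fun v => rfl
      have h2 : ((b - a : C00 𝕜) : StoppingTimeSpace 𝕜) = ∑ v ∈ levels N,
          (b.coeff v - a.coeff v) • ((unitVec v : C00 𝕜) : StoppingTimeSpace 𝕜) := by
        conv_lhs => rw [eq_sum_unitVec (b - a) (levels N) hN]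
        have h1 := map_sum (Completion.toComplL : C00 𝕜 →L[𝕜] StoppingTimeSpace 𝕜)
          (fun v => (b - a).coeff v • (unitVec v : C00 𝕜)) (levels N)
        simp only [map_smul, Completion.coe_toComplL] at h1
        exact h1
      rw [← map_sub, ← Completion.coe_sub, h2, map_sum]
      calc ‖∑ v ∈ levels N, f ((b.coeff v - a.coeff v) •
            ((unitVec v : C00 𝕜) : StoppingTimeSpace 𝕜))‖
          ≤ ∑ v ∈ levels N, ‖f ((b.coeff v - a.coeff v) •
            ((unitVec v : C00 𝕜) : StoppingTimeSpace 𝕜))‖ := norm_sum_le _ _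
        _ ≤ ∑ v ∈ levels N, φ v * ‖b.coeff v - a.coeff v‖ := by
            refine sum_le_sum fun v _ => ?_
            rw [map_smul, norm_smul, mul_comm]
            refine mul_le_mul_of_nonneg_right ?_ (norm_nonneg _)
            exact single_le_sum (f := fun f => wt f v) (fun f _ => norm_nonneg _) hf
        _ ≤ ε / 2 := h1
    exact lt_of_le_of_lt hzle (half_lt_self hε)

end Pool.Agent.StoppingTime
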